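import Pool.Agent.Helper13.PS.St

/-!
# Project PS, module PE: nearly flat for exponents close to one
-/

set_option autoImplicit false

noncomputable section

namespace Pool.Agent.Helper76.PS

open Finset Pool.Agent.Helper76.ND Pool.Agent.Helper13.PS

theorem ns_le_qs (e n s M : ℕ) : ns e n s M ≤ qs n s := by
  rw [← card_hd_te n s]
  unfold ns
  refine div_le_div_of_nonneg_right ?_ (by positivity)
  have : ((W s).filter (fun l => hd l = n ∧ te l = true ∧ 3 ^ e ∣ 2 ^ s * M + cc l)).card ≤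
      ((W s).filter (fun l => hd l = n ∧ te l = true)).card := by
    refine Finset.card_le_card (fun l hl => ?_)
    obtain ⟨h1, h2, h3, _⟩ := Finset.mem_filter.1 hl
    exact Finset.mem_filter.2 ⟨h1, h2, h3⟩
  exact_mod_cast this

theorem pe_m {C ε : ℝ} (hC : 0 < C) (hε : 0 < ε) :
    ∃ m : ℕ, 1 ≤ m ∧ C * (m : ℝ) ^ (-(1 / 200) : ℝ) ≤ ε := by
  have h1 : Filter.Tendsto (fun n : ℕ => (n : ℝ) ^ (-(1 / 200) : ℝ)) Filter.atTop (nhds 0) :=
    (tendsto_rpow_neg_atTop (by norm_num : (0 : ℝ) < 1 / 200)).comp tendsto_natCast_atTop_atTop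
  have h2 : ∀ᶠ n : ℕ in Filter.atTop, (n : ℝ) ^ (-(1 / 200) : ℝ) < ε / C :=
    h1.eventually_lt_const (by positivity)
  obtain ⟨n, hn, hn'⟩ := (h2.and (Filter.eventually_ge_atTop 1)).exists
  refine ⟨n, hn', ?_⟩
  have := mul_le_mul_of_nonneg_left hn.le hC.le
  rwa [mul_div_cancel₀ _ hC.ne'] at this

theorem pe_k {δ : ℝ} (hδ : 0 < δ) : ∃ k : ℕ, 1 ≤ k ∧ (6 : ℝ) ≤ (1 + δ / 3) ^ k := by
  refine ⟨⌈15 / δ⌉₊ + 1, by omega, ?_⟩
  have h1 := one_add_mul_le_pow (show (-2 : ℝ) ≤ δ / 3 by linarith) (⌈15 / δ⌉₊ + 1)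
  have h2 : 15 / δ ≤ (⌈15 / δ⌉₊ : ℝ) := Nat.le_ceil _
  rw [div_le_iff₀ hδ] at h2
  push_cast at h1
  refine le_trans ?_ h1
  nlinarith

theorem hPE (hCh : StCh) (hQs : StQs) (hPA : StPA) : StPE := by
  intro δ hδ
  obtain ⟨C, hC, hCh⟩ := hCh
  obtain ⟨hPA1, -, hPA3, hPA4⟩ := hPA
  obtain ⟨m, hm, hmC⟩ := pe_m hC (show 0 < δ / 18 by positivity)
  obtain ⟨k, hk, hk6⟩ := pe_k hδ
  set n := m * k with hn
  have hn1 : 1 ≤ n := Nat.mul_pos hm hk
  have hmn : m ≤ n := Nat.le_mul_of_pos_right m hk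
  refine ⟨n, hn1, fun K => ?_⟩
  have hn0 : (0 : ℝ) < n := by exact_mod_cast hn1
  set r : ℝ := 1 / 3 ^ (n - m) with hr
  have hr0 : 0 < r := by positivity
  set R : ℕ → ℝ := fun M => ∑ s ∈ range K, ns m n s M / 3 ^ (n - m) with hR
  have hRr : ∀ M, R M ≤ r := by
    intro M
    show ∑ s ∈ range K, ns m n s M / 3 ^ (n - m) ≤ r
    rw [← Finset.sum_div, hr]
    refine div_le_div_of_nonneg_right ?_ (by positivity)
    exact le_trans (Finset.sum_le_sum (fun s _ => ns_le_qs m n s M)) (hQs.1 n K)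
  have hdiff : ∑ M ∈ range (3 ^ n), |P K n M - R M| ≤ δ / 18 := by
    have h1 : ∀ M ∈ range (3 ^ n), |P K n M - R M| ≤
        ∑ s ∈ range K, |ns n n s M - ns m n s M / 3 ^ (n - m)| := by
      intro M _
      have h2 : P K n M - R M = ∑ s ∈ range K, (ns n n s M - ns m n s M / 3 ^ (n - m)) := by
        rw [Finset.sum_sub_distrib]
        rfl
      rw [h2]
      exact Finset.abs_sum_le_sum_abs _ _
    refine le_trans (Finset.sum_le_sum h1) ?_
    rw [Finset.sum_comm]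
    exact le_trans (hCh m n K hm hmn) hmC
  set τ : ℝ := 2 * r with hτ
  have hτ0 : 0 < τ := by positivity
  set q : ℝ := 1 + 1 / (n : ℝ) with hq
  have hinv : (0 : ℝ) < 1 / (n : ℝ) := by positivity
  have hpt : ∀ M ∈ range (3 ^ n), P K n M ^ q ≤
      τ ^ (1 / (n : ℝ)) * P K n M + 2 * |P K n M - R M| := by
    intro M _
    have hP0 := hPA1 K n M
    have hP1 := hPA4 K n M
    have hab : 0 ≤ |P K n M - R M| := abs_nonneg _
    have hsplit : P K n M ^ q = P K n M * P K n M ^ (1 / (n : ℝ)) := by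
      rcases hP0.eq_or_lt with h0 | h0
      · rw [← h0, zero_mul, Real.zero_rpow (by positivity)]
      · rw [hq, Real.rpow_add h0, Real.rpow_one]
    have hτp : 0 ≤ τ ^ (1 / (n : ℝ)) := (Real.rpow_pos_of_pos hτ0 _).le
    by_cases hc : P K n M ≤ τ
    · have h1 : P K n M ^ (1 / (n : ℝ)) ≤ τ ^ (1 / (n : ℝ)) :=
        Real.rpow_le_rpow hP0 hc hinv.le
      rw [hsplit]
      have h2 := mul_le_mul_of_nonneg_left h1 hP0
      linarith
    · have hc' := not_le.1 hc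
      have h1 : P K n M ^ (1 / (n : ℝ)) ≤ 1 := Real.rpow_le_one hP0 hP1 hinv.le
      have h2 := mul_le_mul_of_nonneg_left h1 hP0
      have h3 := hRr M
      have h4 : P K n M - R M ≤ |P K n M - R M| := le_abs_self _
      have h5 : 0 ≤ τ ^ (1 / (n : ℝ)) * P K n M := mul_nonneg hτp hP0
      rw [hsplit]
      linarith
  have hsum := Finset.sum_le_sum hpt
  rw [Finset.sum_add_distrib, ← Finset.mul_sum, ← Finset.mul_sum] at hsum
  have hτn : τ ^ (1 / (n : ℝ)) ≤ (1 + δ / 3) / 3 := by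
    have hb : 0 ≤ (1 + δ / 3) / 3 := by positivity
    have h1 : τ ≤ ((1 + δ / 3) / 3) ^ n := by
      have h3 : (3 : ℝ) ^ n = 3 ^ (n - m) * 3 ^ m := by
        rw [← pow_add]
        congr 1
        omega
      have h4 : (2 : ℝ) * 3 ^ m ≤ (1 + δ / 3) ^ n := by
        have h5 : (2 : ℝ) ^ 1 ≤ 2 ^ m := pow_le_pow_right₀ (by norm_num) hm
        have h6 : (2 : ℝ) * 3 ^ m ≤ 6 ^ m := by
          rw [show (6 : ℝ) = 2 * 3 by norm_num, mul_pow]
          exact mul_le_mul_of_nonneg_right (by linarith) (by positivity)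
        have h7 : (6 : ℝ) ^ m ≤ ((1 + δ / 3) ^ k) ^ m := pow_le_pow_left₀ (by norm_num) hk6 m
        rw [← pow_mul, mul_comm k m, ← hn] at h7
        exact le_trans h6 h7
      rw [div_pow, le_div_iff₀ (by positivity), hτ, hr, h3]
      calc (2 : ℝ) * (1 / 3 ^ (n - m)) * (3 ^ (n - m) * 3 ^ m) = 2 * 3 ^ m := by field_simp
        _ ≤ _ := h4
    calc τ ^ (1 / (n : ℝ)) ≤ (((1 + δ / 3) / 3) ^ n) ^ (1 / (n : ℝ)) :=
          Real.rpow_le_rpow hτ0.le h1 hinv.le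
      _ = (1 + δ / 3) / 3 := by
          rw [one_div]
          exact Real.pow_rpow_inv_natCast hb (by omega)
  have hPsum0 : 0 ≤ ∑ M ∈ range (3 ^ n), P K n M := Finset.sum_nonneg (fun M _ => hPA1 K n M)
  have h1 : τ ^ (1 / (n : ℝ)) * ∑ M ∈ range (3 ^ n), P K n M ≤ (1 + δ / 3) / 3 := by
    calc τ ^ (1 / (n : ℝ)) * ∑ M ∈ range (3 ^ n), P K n M ≤
          (1 + δ / 3) / 3 * ∑ M ∈ range (3 ^ n), P K n M :=
          mul_le_mul_of_nonneg_right hτn hPsum0
      _ ≤ (1 + δ / 3) / 3 * 1 := mul_le_mul_of_nonneg_left (hPA3 K n) (by positivity)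
      _ = _ := mul_one _
  have h2 : (3 : ℝ) ^ (δ - 1) = 3 ^ δ / 3 := by
    rw [Real.rpow_sub (by norm_num), Real.rpow_one]
  have h3 : 1 + δ ≤ (3 : ℝ) ^ δ := by
    have h4 : (1 : ℝ) ≤ Real.log 3 := by
      rw [Real.le_log_iff_exp_le (by norm_num)]
      have := Real.exp_one_lt_d9
      linarith
    rw [Real.rpow_def_of_pos (by norm_num)]
    have h5 := Real.add_one_le_exp (Real.log 3 * δ)
    nlinarith
  have h6 : Sq K n q ≤ (1 + δ / 3) / 3 + 2 * (δ / 18) := by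
    unfold Sq
    linarith
  rw [h2]
  linarith

end Pool.Agent.Helper76.PS
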